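import Mathlib

set_option autoImplicit false

/-!
# The weak rainbow saturation number of a clique

Let `U` be a set of `r - 1` vertices, let `G` consist of all pairs that meet `U`, and give distinct
colours to the edges of `G`.  A non-edge `vw` and a colour `c` exclude at most one vertex of `U`: the
vertices `v`, `w` and the others span a rainbow clique of `G + vw`.
-/

namespace Pool.Agent.Results.MP_d10f6f_co.CliqueJoin

open Finset

/-- In the graph obtained from `(G, χ)` by adding the edges `e j`, `j ≤ i`, in the colours `c j`, the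
pair `x` is an edge of colour `k`. -/
def HasColour {n m : ℕ} (G : SimpleGraph (Fin n)) (χ : Sym2 (Fin n) → ℕ)
    (e : Fin m → Sym2 (Fin n)) (c : Fin m → ℕ) (i : Fin m) (x : Sym2 (Fin n)) (k : ℕ) : Prop :=
  (x ∈ G.edgeSet ∧ k = χ x) ∨ ∃ j ≤ i, x = e j ∧ k = c j

/-- In the graph obtained from `(G, χ)` by adding the edges `e j`, `j ≤ i`, in the colours `c j`, the
edge `e i` lies in a rainbow clique with `r` vertices: all pairs of vertices of `S` are edges, and
`κ` gives their pairwise distinct colours. -/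
def InRainbowClique {n m : ℕ} (r : ℕ) (G : SimpleGraph (Fin n)) (χ : Sym2 (Fin n) → ℕ)
    (e : Fin m → Sym2 (Fin n)) (c : Fin m → ℕ) (i : Fin m) : Prop :=
  ∃ (S : Finset (Fin n)) (κ : Sym2 (Fin n) → ℕ), S.card = r ∧ (∀ v ∈ e i, v ∈ S) ∧
    (∀ u ∈ S, ∀ v ∈ S, u ≠ v → HasColour G χ e c i s(u, v) (κ s(u, v))) ∧
    ∀ u ∈ S, ∀ v ∈ S, ∀ u' ∈ S, ∀ v' ∈ S, u ≠ v → u' ≠ v' →
      κ s(u, v) = κ s(u', v') → s(u, v) = s(u', v')

/-- `(G, χ)` is weakly `K_r`-rainbow saturated: there is an ordering `e` of the non-edges of `G` such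
that for every sequence `c` of pairwise distinct colours every added edge lies in a rainbow `K_r`. -/
def WeaklySaturated {n : ℕ} (r : ℕ) (G : SimpleGraph (Fin n)) (χ : Sym2 (Fin n) → ℕ) : Prop :=
  ∃ (m : ℕ) (e : Fin m → Sym2 (Fin n)), Function.Injective e ∧
    (∀ x : Sym2 (Fin n), (∃ j, e j = x) ↔ x ∈ Gᶜ.edgeSet) ∧
    ∀ c : Fin m → ℕ, Function.Injective c → ∀ i, InRainbowClique r G χ e c i

/-- `rwsat(n, K_r)` -/
noncomputable def rwsat (n r : ℕ) : ℕ :=
  sInf {k | ∃ (G : SimpleGraph (Fin n)) (χ : Sym2 (Fin n) → ℕ),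
    WeaklySaturated r G χ ∧ G.edgeSet.ncard = k}

/-- all pairs which meet the first `t` vertices -/
def J (n t : ℕ) : SimpleGraph (Fin n) where
  Adj u v := u ≠ v ∧ (u.val < t ∨ v.val < t)
  symm := ⟨fun _ _ h => ⟨h.1.symm, h.2.symm⟩⟩
  loopless := ⟨fun _ h => h.1 rfl⟩

lemma ncard_add {n : ℕ} (G : SimpleGraph (Fin n)) :
    G.edgeSet.ncard + Gᶜ.edgeSet.ncard = n.choose 2 := by
  classical
  have h1 : G.edgeSet ∪ Gᶜ.edgeSet = (⊤ : SimpleGraph (Fin n)).edgeSet := by
    rw [← SimpleGraph.edgeSet_sup, sup_compl_eq_top]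
  have h2 : Disjoint G.edgeSet Gᶜ.edgeSet := by
    rw [SimpleGraph.disjoint_edgeSet]
    exact disjoint_compl_right
  rw [← Set.ncard_union_eq h2 (Set.toFinite _) (Set.toFinite _), h1, ← SimpleGraph.coe_edgeFinset,
    Set.ncard_coe_finset, SimpleGraph.card_edgeFinset_top_eq_card_choose_two, Fintype.card_fin]

lemma J_compl {n t : ℕ} (ht : t ≤ n) : (n - t).choose 2 ≤ (J n t)ᶜ.edgeSet.ncard := by
  classical
  have h1 : (⊤ : SimpleGraph (Fin (n - t))).edgeSet.ncard = (n - t).choose 2 := by
    rw [← SimpleGraph.coe_edgeFinset, Set.ncard_coe_finset,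
      SimpleGraph.card_edgeFinset_top_eq_card_choose_two, Fintype.card_fin]
  let f : Fin (n - t) → Fin n := fun x => ⟨x.val + t, by omega⟩
  have hf : Function.Injective f := by
    intro x y h
    have := congrArg Fin.val h
    simp only [f] at this
    exact Fin.ext (by omega)
  rw [← h1]
  apply Set.ncard_le_ncard_of_injOn (Sym2.map f)
  · intro x hx
    induction x using Sym2.ind with
    | _ a b =>
      have hab : a ≠ b := hx
      rw [Sym2.map_mk, SimpleGraph.mem_edgeSet, SimpleGraph.compl_adj]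
      refine ⟨fun h => hab (hf h), ?_⟩
      rintro ⟨-, h⟩
      simp only [f] at h
      omega
  · exact (Sym2.map.injective hf).injOn

lemma J_edges {n t : ℕ} (ht : t ≤ n) :
    (J n t).edgeSet.ncard ≤ n.choose 2 - (n - t).choose 2 := by
  have h1 := ncard_add (J n t)
  have h2 := J_compl ht
  omega

/-- The construction. -/
theorem saturated (n r : ℕ) (hr : 2 ≤ r) (hn : r - 1 ≤ n) :
    ∃ χ : Sym2 (Fin n) → ℕ, WeaklySaturated r (J n (r - 1)) χ := by
  classical
  let χ : Sym2 (Fin n) → ℕ := fun x => (Fintype.equivFin (Sym2 (Fin n)) x).val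
  have hχ : Function.Injective χ := fun x y h => (Fintype.equivFin _).injective (Fin.ext h)
  -- an ordering of the non-edges
  let N : Finset (Sym2 (Fin n)) := (J n (r - 1))ᶜ.edgeFinset
  let eq := N.equivFin
  refine ⟨χ, N.card, fun j => (eq.symm j).1, ?_, ?_, ?_⟩
  · intro i j h
    exact eq.symm.injective (Subtype.ext h)
  · intro x
    constructor
    · rintro ⟨j, rfl⟩
      have := (eq.symm j).2
      exact SimpleGraph.mem_edgeFinset.1 this
    · intro hx
      exact ⟨eq ⟨x, SimpleGraph.mem_edgeFinset.2 hx⟩, by simp⟩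
  · intro c _ i
    have hi := (eq.symm i).2
    have hi' : (eq.symm i).1 ∈ (J n (r - 1))ᶜ.edgeSet := SimpleGraph.mem_edgeFinset.1 hi
    obtain ⟨v, w, hvw⟩ : ∃ v w, (eq.symm i).1 = s(v, w) := by
      generalize (eq.symm i).1 = z
      induction z using Sym2.ind with
      | _ a b => exact ⟨a, b, rfl⟩
    rw [hvw, SimpleGraph.mem_edgeSet, SimpleGraph.compl_adj] at hi'
    obtain ⟨hne, hnadj⟩ := hi'
    have hv : r - 1 ≤ v.val := by
      by_contra h
      exact hnadj ⟨hne, Or.inl (by omega)⟩
    have hw : r - 1 ≤ w.val := by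
      by_contra h
      exact hnadj ⟨hne, Or.inr (by omega)⟩
    -- the set `U`
    let U : Finset (Fin n) := univ.filter fun u => u.val < r - 1
    have hUcard : U.card = r - 1 := by
      have : U = (univ : Finset (Fin (r - 1))).map
          ⟨fun x => (⟨x.val, by omega⟩ : Fin n), fun x y h => by
            have := congrArg Fin.val h
            exact Fin.ext this⟩ := by
        ext u
        simp only [U, mem_filter, mem_univ, true_and, mem_map, Function.Embedding.coeFn_mk]
        constructor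
        · intro hu; exact ⟨⟨u.val, hu⟩, rfl⟩
        · rintro ⟨x, rfl⟩; exact x.2
      rw [this, card_map, card_univ, Fintype.card_fin]
    -- the vertex excluded by the colour
    obtain ⟨u₀, hu₀U, hu₀⟩ : ∃ u₀ ∈ U, ∀ x ∈ (J n (r - 1)).edgeSet, χ x = c i →
        (∀ y ∈ x, y ∈ U ∨ y = v ∨ y = w) → u₀ ∈ x := by
      have hUne : U.Nonempty := card_pos.1 (by omega)
      by_cases hc : ∃ x ∈ (J n (r - 1)).edgeSet, χ x = c i
      · obtain ⟨x, hx, hxc⟩ := hc
        have hex : ∃ u ∈ x, u.val < r - 1 := by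
          induction x using Sym2.ind with
          | _ a b =>
            rcases hx.2 with h | h
            · exact ⟨a, by simp, h⟩
            · exact ⟨b, by simp, h⟩
        obtain ⟨u, hu, hult⟩ := hex
        refine ⟨u, by simp [U, hult], ?_⟩
        intro y hy hyc _
        rw [hχ (hyc.trans hxc.symm)]
        exact hu
      · obtain ⟨u, hu⟩ := hUne
        exact ⟨u, hu, fun x hx hxc _ => absurd ⟨x, hx, hxc⟩ hc⟩
    let T : Finset (Fin n) := U.erase u₀
    have hvT : v ∉ T := fun h => by
      have := mem_of_mem_erase h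
      simp only [U, mem_filter, mem_univ, true_and] at this
      omega
    have hwT : w ∉ T := fun h => by
      have := mem_of_mem_erase h
      simp only [U, mem_filter, mem_univ, true_and] at this
      omega
    let S : Finset (Fin n) := insert v (insert w T)
    have hScard : S.card = r := by
      have h1 : T.card = r - 2 := by
        rw [card_erase_of_mem hu₀U, hUcard]
        omega
      have h2 : v ∉ insert w T := by
        rw [mem_insert, not_or]
        exact ⟨hne, hvT⟩
      rw [card_insert_of_notMem h2, card_insert_of_notMem hwT, h1]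
      omega
    let κ : Sym2 (Fin n) → ℕ := fun x => if x = s(v, w) then c i else χ x
    have hS : ∀ u ∈ S, (u ∈ U ∧ u ≠ u₀) ∨ u = v ∨ u = w := by
      intro u hu
      rcases mem_insert.1 hu with h | h
      · exact Or.inr (Or.inl h)
      · rcases mem_insert.1 h with h | h
        · exact Or.inr (Or.inr h)
        · exact Or.inl ⟨mem_of_mem_erase h, (mem_erase.1 h).1⟩
    have hUlt : ∀ u ∈ U, u.val < r - 1 := fun u hu => by
      simpa [U] using hu
    have hedge : ∀ a ∈ S, ∀ b ∈ S, a ≠ b → s(a, b) ≠ s(v, w) →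
        s(a, b) ∈ (J n (r - 1)).edgeSet := by
      intro a ha b hb hab hne'
      refine ⟨hab, ?_⟩
      rcases hS a ha with h | h | h
      · exact Or.inl (hUlt a h.1)
      · rcases hS b hb with h' | h' | h'
        · exact Or.inr (hUlt b h'.1)
        · exact absurd (h.trans h'.symm) hab
        · exact absurd (by rw [h, h']) hne'
      · rcases hS b hb with h' | h' | h'
        · exact Or.inr (hUlt b h'.1)
        · exact absurd (by rw [h, h', Sym2.eq_swap]) hne'
        · exact absurd (h.trans h'.symm) hab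
    have hnot : ∀ a ∈ S, ∀ b ∈ S, a ≠ b → s(a, b) ≠ s(v, w) → χ s(a, b) ≠ c i := by
      intro a ha b hb hab hne' hcol
      have hcase : ∀ y ∈ S, y ∈ U ∨ y = v ∨ y = w := fun y hy => by
        rcases hS y hy with h | h
        · exact Or.inl h.1
        · exact Or.inr h
      have hmem := hu₀ _ (hedge a ha b hb hab hne') hcol (by
        intro y hy
        rcases Sym2.mem_iff.1 hy with rfl | rfl
        · exact hcase _ ha
        · exact hcase _ hb)
      have hno : u₀ ∉ S := by
        intro h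
        rcases hS u₀ h with h' | h' | h'
        · exact h'.2 rfl
        · have := hUlt u₀ hu₀U
          rw [h'] at this
          omega
        · have := hUlt u₀ hu₀U
          rw [h'] at this
          omega
      rcases Sym2.mem_iff.1 hmem with h | h
      · exact hno (h ▸ ha)
      · exact hno (h ▸ hb)
    refine ⟨S, κ, hScard, ?_, ?_, ?_⟩
    · intro y hy
      have hy' : y ∈ s(v, w) := by rw [← hvw]; exact hy
      rcases Sym2.mem_iff.1 hy' with rfl | rfl
      · exact mem_insert_self _ _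
      · exact mem_insert_of_mem (mem_insert_self _ _)
    · intro a ha b hb hab
      by_cases h : s(a, b) = s(v, w)
      · right
        refine ⟨i, le_refl i, ?_, ?_⟩
        · rw [h]; exact hvw.symm
        · simp only [κ]; rw [if_pos h]
      · left
        refine ⟨hedge a ha b hb hab h, ?_⟩
        simp only [κ]; rw [if_neg h]
    · intro a ha b hb a' ha' b' hb' hab hab' h
      simp only [κ] at h
      by_cases h1 : s(a, b) = s(v, w)
      · by_cases h2 : s(a', b') = s(v, w)
        · rw [h1, h2]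
        · rw [if_pos h1, if_neg h2] at h
          exact absurd h.symm (hnot a' ha' b' hb' hab' h2)
      · by_cases h2 : s(a', b') = s(v, w)
        · rw [if_neg h1, if_pos h2] at h
          exact absurd h (hnot a ha b hb hab h1)
        · rw [if_neg h1, if_neg h2] at h
          exact hχ h

/-- (1) `rwsat(n, K_r) ≤ C(n,2) - C(n-r+1,2)` for all `r ≥ 2` and `n ≥ r - 1`, attained by a graph
that contains a weakly saturated colouring; (2) hence for every `r ≥ 3` there are `C` and `n₀` with
`rwsat(n, K_r) ≤ r n + C` for all `n ≥ n₀`; in fact `rwsat(n, K_r) ≤ (r - 1) n` for all `n ≥ r`. -/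
theorem result :
    (∀ r n : ℕ, 2 ≤ r → r - 1 ≤ n →
      rwsat n r ≤ n.choose 2 - (n - (r - 1)).choose 2 ∧
      ∃ (G : SimpleGraph (Fin n)) (χ : Sym2 (Fin n) → ℕ), WeaklySaturated r G χ ∧
        G.edgeSet.ncard ≤ n.choose 2 - (n - (r - 1)).choose 2) ∧
    (∀ r n : ℕ, 3 ≤ r → r ≤ n → rwsat n r ≤ (r - 1) * n) ∧
    (∀ r : ℕ, 3 ≤ r → ∃ C n₀ : ℕ, ∀ n : ℕ, n₀ ≤ n → rwsat n r ≤ r * n + C) := by
  have h1 : ∀ r n : ℕ, 2 ≤ r → r - 1 ≤ n →
      rwsat n r ≤ n.choose 2 - (n - (r - 1)).choose 2 ∧
      ∃ (G : SimpleGraph (Fin n)) (χ : Sym2 (Fin n) → ℕ), WeaklySaturated r G χ ∧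
        G.edgeSet.ncard ≤ n.choose 2 - (n - (r - 1)).choose 2 := by
    intro r n hr hn
    obtain ⟨χ, hχ⟩ := saturated n r hr hn
    exact ⟨le_trans (Nat.sInf_le ⟨J n (r - 1), χ, hχ, rfl⟩) (J_edges hn),
      J n (r - 1), χ, hχ, J_edges hn⟩
  have h2 : ∀ r n : ℕ, 3 ≤ r → r ≤ n → rwsat n r ≤ (r - 1) * n := by
    intro r n hr hn
    refine (h1 r n (by omega) (by omega)).1.trans ?_
    obtain ⟨t, rfl⟩ : ∃ t, r = t + 1 := ⟨r - 1, by omega⟩
    obtain ⟨a, rfl⟩ : ∃ a, n = t + a := ⟨n - t, by omega⟩
    have e1 : t + 1 - 1 = t := by omega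
    have e2 : t + a - t = a := by omega
    rw [e1, e2]
    have e3 : (t + a).choose 2 ≤ t * (t + a) + a.choose 2 := by
      have q1 : ∀ x : ℕ, ((x.choose 2 : ℕ) : ℚ) = x * (x - 1) / 2 := fun x => Nat.cast_choose_two ℚ x
      have : (((t + a).choose 2 : ℕ) : ℚ) ≤ ((t * (t + a) + a.choose 2 : ℕ) : ℚ) := by
        push_cast
        rw [q1, q1]
        push_cast
        have ht : (0 : ℚ) ≤ t := Nat.cast_nonneg t
        have ha : (0 : ℚ) ≤ a := Nat.cast_nonneg a
        nlinarith
      exact_mod_cast this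
    omega
  refine ⟨h1, h2, fun r hr => ⟨0, r, fun n hn => (h2 r n hr hn).trans ?_⟩⟩
  rw [add_zero]
  exact Nat.mul_le_mul_right _ (Nat.sub_le _ _)

end Pool.Agent.Results.MP_d10f6f_co.CliqueJoin
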